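import Mathlib
import Pool.Agent.Lib.MP_315d97_co.Tile3

/-!
Growth rate of off-diagonally symmetric domino tilings of the Aztec diamond.
-/

set_option autoImplicit false

namespace Pool.Agent.Results.MP_315d97_co.GrowthRate

open Pool.Agent.Lib.MP_315d97_co Filter Topology

/-- number of binary digits used in the lower bound -/
def SS (m : ℕ) : ℕ := Nat.log 2 (2 * m) + 1

lemma lt_SS (m : ℕ) : 2 * m < 2 ^ SS m := Nat.lt_pow_succ_log_self (by norm_num) _

/-- the error term -/
noncomputable def EE (m : ℕ) : ℝ :=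
  4 * SS m * (2 * m + 1) * Real.log (2 * m + 2) / (m + 1) ^ 2

lemma EE_nonneg (m : ℕ) : 0 ≤ EE m := by
  unfold EE
  have h1 : 0 ≤ Real.log (2 * m + 2) := Real.log_nonneg (by
    have : (0:ℝ) ≤ m := Nat.cast_nonneg m
    linarith)
  positivity

lemma EE_le (m : ℕ) : EE m ≤ 32 / Real.log 2 *
    (Real.log (2 * m + 2) ^ 2 / (2 * m + 2)) := by
  have hm : (0:ℝ) ≤ m := Nat.cast_nonneg m
  have hx : (0:ℝ) < 2 * m + 2 := by linarith
  have hl2 : 0 < Real.log 2 := Real.log_pos (by norm_num)
  have hlx : Real.log 2 ≤ Real.log (2 * m + 2) := Real.log_le_log (by norm_num) (by linarith)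
  have hlx0 : 0 < Real.log (2 * m + 2) := lt_of_lt_of_le hl2 hlx
  have hS : (SS m : ℝ) * Real.log 2 ≤ 2 * Real.log (2 * m + 2) := by
    unfold SS
    push_cast
    have h1 : ((Nat.log 2 (2 * m) : ℕ) : ℝ) * Real.log 2 ≤ Real.log (2 * m + 2) := by
      rcases Nat.eq_zero_or_pos m with h0 | h0
      · subst h0
        simp
        exact hl2.le
      · have h2 : (2:ℝ) ^ (Nat.log 2 (2 * m)) ≤ 2 * m := by
          have := Nat.pow_log_le_self 2 (x := 2 * m) (by omega)
          exact_mod_cast this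
        have h3 := Real.log_le_log (by positivity) h2
        rw [Real.log_pow] at h3
        refine h3.trans (Real.log_le_log (by positivity) (by linarith))
    linarith
  unfold EE
  rw [div_le_iff₀ (by positivity)]
  have e1 : 32 / Real.log 2 * (Real.log (2 * m + 2) ^ 2 / (2 * m + 2)) * ((m:ℝ) + 1) ^ 2 =
      (2 * Real.log (2 * m + 2) / Real.log 2) * (4 * (2 * m + 2) * Real.log (2 * m + 2)) := by
    have : (2:ℝ) * m + 2 ≠ 0 := hx.ne'
    field_simp
    ring
  rw [e1]
  have hS' : (SS m : ℝ) ≤ 2 * Real.log (2 * m + 2) / Real.log 2 := by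
    rw [le_div_iff₀ hl2]; exact hS
  have e2 : 4 * (SS m : ℝ) * (2 * m + 1) * Real.log (2 * m + 2) =
      SS m * (4 * (2 * m + 1) * Real.log (2 * m + 2)) := by ring
  rw [e2]
  apply mul_le_mul hS'
  · apply mul_le_mul_of_nonneg_right _ hlx0.le
    linarith
  · positivity
  · positivity

lemma EE_tendsto : Tendsto EE atTop (𝓝 0) := by
  have h1 : Tendsto (fun x : ℝ => Real.log x ^ 2 / x) atTop (𝓝 0) := by
    have := (Real.isLittleO_pow_log_id_atTop (n := 2)).tendsto_div_nhds_zero
    simpa using this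
  have h2 : Tendsto (fun m : ℕ => (2:ℝ) * m + 2) atTop atTop := by
    apply tendsto_atTop_add_const_right
    exact Tendsto.const_mul_atTop (by norm_num) tendsto_natCast_atTop_atTop
  have h3 := (h1.comp h2).const_mul (32 / Real.log 2)
  rw [mul_zero] at h3
  exact squeeze_zero EE_nonneg EE_le h3

lemma inv_tendsto : Tendsto (fun m : ℕ => ((m:ℝ) + 1)⁻¹) atTop (𝓝 0) := by
  have := tendsto_one_div_add_atTop_nhds_zero_nat (𝕜 := ℝ)
  simpa using this

/-- cast of the triangular number -/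
lemma cast_tri (m : ℕ) : ((m * (m+1) / 2 : ℕ) : ℝ) = (m:ℝ) * (m+1) / 2 := by
  have h : 2 ∣ m * (m+1) := (Nat.even_mul_succ_self m).two_dvd
  rw [Nat.cast_div h (by norm_num)]
  push_cast
  ring

lemma log_upper {m a : ℕ} (ha : 0 < a) (h : a ^ 2 ≤ 2 ^ (2 * m) * 2 ^ (m * (m+1) / 2)) :
    2 * Real.log a ≤ (2 * m + (m:ℝ) * (m+1) / 2) * Real.log 2 := by
  have h1 : ((a:ℝ)) ^ 2 ≤ 2 ^ (2 * m) * 2 ^ (m * (m+1) / 2) := by exact_mod_cast h
  have h2 := Real.log_le_log (by positivity) h1
  rw [Real.log_mul (by positivity) (by positivity), Real.log_pow, Real.log_pow, Real.log_pow,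
    cast_tri] at h2
  push_cast at h2
  linarith

lemma log_lower {m a S : ℕ}
    (h : 2 ^ (m * (m+1) / 2) ≤ 2 ^ (2 * m) * (a * (2 * m + 2) ^ (2 * (S * (2 * m + 1)))) ^ 2) :
    0 < a ∧ ((m:ℝ) * (m+1) / 2 - 2 * m) * Real.log 2 - 4 * S * (2 * m + 1) * Real.log (2 * m + 2) ≤
      2 * Real.log a := by
  have ha : 0 < a := by
    rcases Nat.eq_zero_or_pos a with h0 | h0
    · subst h0
      simp at h
    · exact h0
  refine ⟨ha, ?_⟩
  have ha' : (0:ℝ) < a := by exact_mod_cast ha
  have h1 : (2:ℝ) ^ (m * (m+1) / 2) ≤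
      2 ^ (2 * m) * (a * (2 * m + 2) ^ (2 * (S * (2 * m + 1)))) ^ 2 := by exact_mod_cast h
  have h2 := Real.log_le_log (by positivity) h1
  rw [Real.log_mul (by positivity) (by positivity), Real.log_pow, Real.log_pow, Real.log_pow,
    cast_tri, Real.log_mul (by positivity) (by positivity), Real.log_pow] at h2
  push_cast at h2
  linarith

/-- passing from logarithms to the powers in the statement -/
lemma tendsto_rpow_of_log {a : ℕ → ℕ} {d : ℕ → ℝ} (ha : ∀ᶠ n in atTop, 0 < a n)
    (h : Tendsto (fun n => 2 * Real.log (a n) / d n) atTop (𝓝 (Real.log 2 / 2))) :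
    Tendsto (fun n => ((a n : ℕ) : ℝ) ^ (2 / d n)) atTop (𝓝 (√2)) := by
  have h1 := (Real.continuous_exp.tendsto _).comp h
  have h2 : Real.exp (Real.log 2 / 2) = √2 := by
    rw [Real.sqrt_eq_rpow, Real.rpow_def_of_pos (by norm_num)]
    congr 1
    ring
  rw [h2] at h1
  refine h1.congr' ?_
  filter_upwards [ha] with n hn
  have : (0:ℝ) < a n := by exact_mod_cast hn
  rw [Function.comp, Real.rpow_def_of_pos this]
  congr 1
  ring

lemma upper_tendsto :
    Tendsto (fun m : ℕ => (2 * ((m:ℝ)+1) + ((m:ℝ)+1) * ((m:ℝ)+1+1) / 2) * Real.log 2 /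
      ((m:ℝ)+1) ^ 2) atTop (𝓝 (Real.log 2 / 2)) := by
  have h := (inv_tendsto.const_mul (5/2 * Real.log 2)).const_add (Real.log 2 / 2)
  rw [mul_zero, add_zero] at h
  refine h.congr ?_
  intro m
  have : (m:ℝ) + 1 ≠ 0 := by positivity
  field_simp
  ring

lemma lower_tendsto :
    Tendsto (fun m : ℕ => (((m:ℝ) * (m+1) / 2 - 2 * m) * Real.log 2 -
      4 * SS m * (2 * m + 1) * Real.log (2 * m + 2)) / ((m:ℝ)+1) ^ 2) atTop
      (𝓝 (Real.log 2 / 2)) := by
  have h1 := (inv_tendsto.const_mul (-(5/2) * Real.log 2)).const_add (Real.log 2 / 2)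
  have h2 := (inv_tendsto.mul inv_tendsto).const_mul (2 * Real.log 2)
  have h := (h1.add h2).sub EE_tendsto
  simp only [mul_zero, add_zero, sub_zero] at h
  refine h.congr ?_
  intro m
  have : (m:ℝ) + 1 ≠ 0 := by positivity
  unfold EE
  field_simp
  ring

lemma ratio_tendsto : Tendsto (fun m : ℕ => (((m:ℝ)+1) ^ 2) / (m:ℝ) ^ 2) atTop (𝓝 1) := by
  have h1 : Tendsto (fun m : ℕ => 1 + ((m:ℝ))⁻¹) atTop (𝓝 (1 + 0)) :=
    (tendsto_inv_atTop_nhds_zero_nat (𝕜 := ℝ)).const_add 1
  have h2 := h1.pow 2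
  rw [add_zero, one_pow] at h2
  refine h2.congr' ?_
  filter_upwards [eventually_gt_atTop 0] with m hm
  have : (m:ℝ) ≠ 0 := by
    have : (0:ℝ) < m := by exact_mod_cast hm
    exact this.ne'
  field_simp

/-- Both growth rates are `√2`. -/
theorem result :
    Tendsto (fun n : ℕ => ((offDiag (2 * n)).ncard : ℝ) ^ ((2 : ℝ) / (2 * n) ^ 2)) atTop (𝓝 (√2)) ∧
    Tendsto (fun n : ℕ => ((nearOffDiag (2 * n - 1)).ncard : ℝ) ^ ((2 : ℝ) / (2 * n - 1) ^ 2))
      atTop (𝓝 (√2)) := by
  have even_sub : Tendsto (fun n : ℕ => 2 * n) atTop atTop :=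
    tendsto_id.const_mul_atTop' (by norm_num)
  constructor
  · have hlow : ∀ n : ℕ, _ := fun n : ℕ =>
      log_lower (offDiag_lower (m := 2 * n) (S := SS (2 * n)) (by omega) (lt_SS _))
    apply tendsto_rpow_of_log (Eventually.of_forall (fun n => (hlow n).1))
    -- squeeze
    have hup' : Tendsto (fun m : ℕ => (2 * (m:ℝ) + (m:ℝ) * ((m:ℝ)+1) / 2) * Real.log 2 /
        (m:ℝ) ^ 2) atTop (𝓝 (Real.log 2 / 2)) := by
      rw [← tendsto_add_atTop_iff_nat 1]
      refine upper_tendsto.congr ?_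
      intro m
      push_cast
      ring_nf
    have hlo' : Tendsto (fun m : ℕ => (((m:ℝ) * (m+1) / 2 - 2 * m) * Real.log 2 -
        4 * SS m * (2 * m + 1) * Real.log (2 * m + 2)) / (m:ℝ) ^ 2) atTop
        (𝓝 (Real.log 2 / 2)) := by
      have h := lower_tendsto.mul ratio_tendsto
      rw [mul_one] at h
      refine h.congr' ?_
      filter_upwards [eventually_gt_atTop 0] with m hm
      have h1 : (m:ℝ) ≠ 0 := by
        have : (0:ℝ) < m := by exact_mod_cast hm
        exact this.ne'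
      have h2 : (m:ℝ) + 1 ≠ 0 := by positivity
      field_simp
    have hu := hup'.comp even_sub
    have hl := hlo'.comp even_sub
    refine tendsto_of_tendsto_of_tendsto_of_le_of_le' hl hu ?_ ?_
    · refine Eventually.of_forall (fun n => ?_)
      have := (hlow n).2
      simp only [Function.comp]
      push_cast at this ⊢
      gcongr
    · refine Eventually.of_forall (fun n => ?_)
      have := log_upper (hlow n).1 (offDiag_upper (2 * n))
      simp only [Function.comp]
      push_cast at this ⊢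
      gcongr
  · -- shift the index by one: `2 (n+1) - 1 = 2 n + 1`
    rw [← tendsto_add_atTop_iff_nat 1]
    have hlow : ∀ n : ℕ, _ := fun n : ℕ =>
      log_lower (nearOffDiag_lower (m := 2 * n) (S := SS (2 * n)) (by omega) (lt_SS _))
    have e : ∀ n : ℕ, 2 * (n + 1) - 1 = 2 * n + 1 := fun n => by omega
    have e' : ∀ n : ℕ, (2 * ((n + 1 : ℕ) : ℝ) - 1) = 2 * n + 1 := fun n => by push_cast; ring
    simp only [e, e']
    apply tendsto_rpow_of_log (Eventually.of_forall (fun n => (hlow n).1))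
    have hu := upper_tendsto.comp even_sub
    have hl := lower_tendsto.comp even_sub
    refine tendsto_of_tendsto_of_tendsto_of_le_of_le' hl hu ?_ ?_
    · refine Eventually.of_forall (fun n => ?_)
      have := (hlow n).2
      simp only [Function.comp]
      push_cast at this ⊢
      gcongr
    · refine Eventually.of_forall (fun n => ?_)
      have := log_upper (hlow n).1 (nearOffDiag_upper (2 * n + 1))
      simp only [Function.comp]
      push_cast at this ⊢
      gcongr

end Pool.Agent.Results.MP_315d97_co.GrowthRate
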